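import Mathlib

set_option autoImplicit false

open Complex MeasureTheory Set Filter Topology Asymptotics

namespace Pool.Agent.H.MP_fcb754_nt

lemma hs_congr {ι : Type*} {f g : ι → ℂ} {a b : ℂ} (h : HasSum f a) (h1 : ∀ i, g i = f i)
    (h2 : b = a) : HasSum g b := by
  rw [funext h1, h2]
  exact h

lemma ioc_pow (z : ℂ) (hz : 0 < z.re) (n : ℕ) :
    IntegrableOn (fun t : ℝ => (t : ℂ) ^ (z - 1) * (t : ℂ) ^ n) (Ioc 0 1) ∧
      ∫ t in Ioc (0 : ℝ) 1, (t : ℂ) ^ (z - 1) * (t : ℂ) ^ n = 1 / (z + n) := by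
  have aux1 : -1 < (z + n - 1).re := by
    simp only [sub_re, add_re, natCast_re, one_re]
    have : (0 : ℝ) ≤ n := Nat.cast_nonneg n
    linarith
  have aux2 : z + n ≠ 0 := by
    intro h
    have := congrArg Complex.re h
    simp only [add_re, natCast_re, zero_re] at this
    have : (0 : ℝ) ≤ n := Nat.cast_nonneg n
    linarith
  have heq : EqOn (fun t : ℝ => (t : ℂ) ^ (z + n - 1))
      (fun t : ℝ => (t : ℂ) ^ (z - 1) * (t : ℂ) ^ n) (Ioc 0 1) := by
    intro t ht
    have ht0 : (t : ℂ) ≠ 0 := by exact_mod_cast ht.1.ne'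
    simp only
    rw [← cpow_natCast, ← cpow_add _ _ ht0]
    congr 1
    ring
  constructor
  · refine IntegrableOn.congr_fun ?_ heq measurableSet_Ioc
    rw [← intervalIntegrable_iff_integrableOn_Ioc_of_le zero_le_one]
    exact intervalIntegral.intervalIntegrable_cpow' aux1
  · rw [← setIntegral_congr_fun measurableSet_Ioc heq,
      ← intervalIntegral.integral_of_le zero_le_one, integral_cpow (Or.inl aux1), sub_add_cancel,
      ofReal_zero, ofReal_one, one_cpow, zero_cpow aux2, sub_zero]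

lemma ioc_series (c : ℕ → ℂ) (hc : Summable fun n => ‖c n‖) (φ : ℝ → ℂ)
    (hφc : ContinuousOn φ (Ioc 0 1))
    (hφ : ∀ t ∈ Ioc (0 : ℝ) 1, HasSum (fun n => c n * (t : ℂ) ^ n) (φ t)) (z : ℂ)
    (hz : 0 < z.re) :
    IntegrableOn (fun t : ℝ => (t : ℂ) ^ (z - 1) * φ t) (Ioc 0 1) ∧
      HasSum (fun n : ℕ => c n / (z + n)) (∫ t in Ioc (0 : ℝ) 1, (t : ℂ) ^ (z - 1) * φ t) := by
  have h0 := (ioc_pow z hz 0).1
  simp only [pow_zero, mul_one] at h0
  have hb : ∀ t ∈ Ioc (0 : ℝ) 1, ∀ n, ‖c n * (t : ℂ) ^ n‖ ≤ ‖c n‖ := by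
    intro t ht n
    rw [norm_mul, norm_pow, Complex.norm_real, Real.norm_of_nonneg ht.1.le]
    exact mul_le_of_le_one_right (norm_nonneg _) (pow_le_one₀ ht.1.le ht.2)
  constructor
  · refine Integrable.mul_bdd (c := ∑' n, ‖c n‖) h0
      (hφc.aestronglyMeasurable measurableSet_Ioc) ?_
    rw [ae_restrict_iff' measurableSet_Ioc]
    refine Eventually.of_forall fun t ht => ?_
    exact (hφ t ht).norm_le_of_bounded hc.hasSum (hb t ht)
  · have hint : ∀ n : ℕ, Integrable (fun t : ℝ => c n * ((t : ℂ) ^ (z - 1) * (t : ℂ) ^ n))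
        (volume.restrict (Ioc 0 1)) := fun n => (ioc_pow z hz n).1.const_mul _
    have hsum : Summable fun n : ℕ =>
        ∫ t in Ioc (0 : ℝ) 1, ‖c n * ((t : ℂ) ^ (z - 1) * (t : ℂ) ^ n)‖ := by
      refine Summable.of_nonneg_of_le (fun n => integral_nonneg fun t => norm_nonneg _)
        (fun n => ?_) (hc.mul_right (∫ t in Ioc (0 : ℝ) 1, ‖(t : ℂ) ^ (z - 1)‖))
      rw [← integral_const_mul]
      refine setIntegral_mono_on (hint n).norm (h0.norm.const_mul _) measurableSet_Ioc ?_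
      intro t ht
      have := hb t ht n
      calc ‖c n * ((t : ℂ) ^ (z - 1) * (t : ℂ) ^ n)‖
          = ‖c n * (t : ℂ) ^ n‖ * ‖(t : ℂ) ^ (z - 1)‖ := by
            rw [← norm_mul]; congr 1; ring
        _ ≤ _ := by gcongr
    have H := hasSum_integral_of_summable_integral_norm hint hsum
    refine hs_congr H ?_ ?_
    · intro n
      rw [integral_const_mul, (ioc_pow z hz n).2]
      ring
    · refine setIntegral_congr_fun measurableSet_Ioc fun t ht => ?_
      rw [← (hφ t ht).tsum_eq, ← tsum_mul_left]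
      congr 1
      ext n
      ring

/-- The entire function `1 / ((s + m) Γ(s))`. -/
noncomputable def EE (m : ℕ) : ℂ → ℂ := dslope (fun s => (Gamma s)⁻¹) (-(m : ℂ))

lemma EE_diff (m : ℕ) : Differentiable ℂ (EE m) := by
  rw [← differentiableOn_univ]
  exact (Complex.differentiableOn_dslope univ_mem).mpr
    Complex.differentiable_one_div_Gamma.differentiableOn

lemma EE_eq (m : ℕ) (s : ℂ) (hs : s ≠ -(m : ℂ)) : EE m s = (Gamma s)⁻¹ / (s + m) := by
  unfold EE
  rw [dslope_of_ne _ hs, slope_def_field, Gamma_neg_nat_eq_zero, inv_zero, sub_zero,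
    sub_neg_eq_add]

lemma EE_bound (R : ℕ) : ∃ M : ℝ, ∀ m : ℕ, ∀ s ∈ Metric.ball (0 : ℂ) R, ‖EE m s‖ ≤ M := by
  have h1 : ∀ m : ℕ, ∃ M : ℝ, ∀ s ∈ Metric.closedBall (0 : ℂ) R, ‖EE m s‖ ≤ M := fun m =>
    (isCompact_closedBall (0 : ℂ) R).exists_bound_of_continuousOn
      (EE_diff m).continuous.continuousOn
  choose M hM using h1
  obtain ⟨M0, hM0⟩ := (isCompact_closedBall (0 : ℂ) R).exists_bound_of_continuousOn
      (Complex.differentiable_one_div_Gamma.continuous.continuousOn)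
  refine ⟨|M0| + ∑ m ∈ Finset.range (R + 1), |M m|, fun m s hs => ?_⟩
  have hs' := Metric.ball_subset_closedBall hs
  have hnn : 0 ≤ ∑ m ∈ Finset.range (R + 1), |M m| :=
    Finset.sum_nonneg fun _ _ => abs_nonneg _
  by_cases hm : m < R + 1
  · have h2 : |M m| ≤ ∑ m ∈ Finset.range (R + 1), |M m| :=
      Finset.single_le_sum (f := fun m => |M m|) (fun _ _ => abs_nonneg _)
        (Finset.mem_range.mpr hm)
    have := hM m s hs'
    have := le_abs_self (M m)
    have := abs_nonneg M0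
    linarith
  · have hm' : (R : ℝ) + 1 ≤ m := by exact_mod_cast not_lt.mp hm
    have hsn : ‖s‖ < R := by simpa using hs
    have h3 : 1 ≤ ‖s + m‖ := by
      have h4 : ‖(m : ℂ)‖ ≤ ‖s + m‖ + ‖s‖ := by
        have := norm_sub_le (s + m) s
        simpa using this
      rw [Complex.norm_natCast] at h4
      linarith
    have hne : s ≠ -(m : ℂ) := by
      intro h
      rw [h] at h3
      simp at h3
      linarith
    rw [EE_eq m s hne, norm_div]
    have h5 := hM0 s hs'
    have h6 : ‖(Gamma s)⁻¹‖ / ‖s + m‖ ≤ ‖(Gamma s)⁻¹‖ := div_le_self (norm_nonneg _) h3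
    have := le_abs_self M0
    linarith

lemma tsum_EE_diff (c : ℕ → ℂ) (hc : Summable fun n => ‖c n‖) :
    Differentiable ℂ (fun s => ∑' m, c m * EE m s) := by
  intro s
  obtain ⟨R, hR⟩ := exists_nat_gt ‖s‖
  obtain ⟨M, hM⟩ := EE_bound R
  have : DifferentiableOn ℂ (fun s => ∑' m, c m * EE m s) (Metric.ball 0 R) := by
    refine differentiableOn_tsum_of_summable_norm (hc.mul_right M)
      (fun m => ((EE_diff m).const_mul _).differentiableOn) Metric.isOpen_ball ?_
    intro m w hw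
    rw [norm_mul]
    exact mul_le_mul_of_nonneg_left (hM m w hw) (norm_nonneg _)
  exact this.differentiableAt (Metric.isOpen_ball.mem_nhds (by simpa using hR))

/-- The continuation lemma. -/
theorem exists_cont (g : ℕ → ℂ) (hg : Summable fun n => ‖g n‖) (f : ℝ → ℂ)
    (hfc : ContinuousOn f (Ioi 0)) (a : ℝ) (ha : 0 < a)
    (htop : f =O[atTop] fun t => Real.exp (-a * t))
    (hf : ∀ t ∈ Ioc (0 : ℝ) 1, HasSum (fun n => g n * (t : ℂ) ^ n) ((t : ℂ) ^ 3 * f t)) :
    ∃ F : ℂ → ℂ, DifferentiableOn ℂ F {s | s ≠ 1 ∧ s ≠ 2 ∧ s ≠ 3} ∧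
      (∀ s : ℂ, 3 < s.re → Gamma s * F s = mellin f s) ∧
      (∀ s : ℂ, 1 < s.re → s.re < 2 →
        MellinConvergent (fun t : ℝ => f t - g 0 / (t : ℂ) ^ 3 - g 1 / (t : ℂ) ^ 2) s ∧
        Gamma s * F s = mellin (fun t : ℝ => f t - g 0 / (t : ℂ) ^ 3 - g 1 / (t : ℂ) ^ 2) s) := by
  set fi : ℝ → ℂ := indicator (Ioi 1) f with hfi
  have hloc : LocallyIntegrableOn fi (Ioi 0) := by
    intro x hx
    obtain ⟨u, hu, hu'⟩ := (hfc.locallyIntegrableOn (μ := volume) measurableSet_Ioi) x hx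
    exact ⟨u, hu, hu'.indicator measurableSet_Ioi⟩
  have htop' : fi =O[atTop] fun t => Real.exp (-a * t) := by
    refine IsBigO.trans (IsBigO.of_bound' (Eventually.of_forall fun t => ?_)) htop
    exact norm_indicator_le_norm_self _ _
  have hbot : ∀ b : ℝ, fi =O[𝓝[>] 0] (· ^ (-b)) := by
    intro b
    refine (isBigO_zero _ _).congr' ?_ EventuallyEq.rfl
    filter_upwards [Ioo_mem_nhdsGT (zero_lt_one (α := ℝ))] with t ht
    rw [hfi, indicator_of_notMem]
    simp only [mem_Ioi, not_lt]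
    exact ht.2.le
  have hBd : Differentiable ℂ (mellin fi) := fun s =>
    mellin_differentiableAt_of_isBigO_rpow_exp ha hloc htop' (hbot (s.re - 1)) (by linarith)
  have hBi : ∀ s : ℂ, IntegrableOn (fun t : ℝ => (t : ℂ) ^ (s - 1) * f t) (Ioi 1) := by
    intro s
    have h1 : MellinConvergent fi s :=
      mellinConvergent_of_isBigO_rpow_exp ha hloc htop' (hbot (s.re - 1)) (by linarith)
    have h2 : IntegrableOn (fun t : ℝ => (t : ℂ) ^ (s - 1) • fi t) (Ioi 1) :=
      IntegrableOn.mono_set h1 (Ioi_subset_Ioi zero_le_one)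
    refine h2.congr_fun (fun t ht => ?_) measurableSet_Ioi
    simp only [hfi, indicator_of_mem ht, smul_eq_mul]
  have hBe : ∀ s : ℂ, mellin fi s = ∫ t in Ioi (1 : ℝ), (t : ℂ) ^ (s - 1) * f t := by
    intro s
    simp only [mellin, hfi, ← indicator_smul]
    simp only [smul_eq_mul]
    rw [integral_indicator measurableSet_Ioi,
      Measure.restrict_restrict_of_subset (Ioi_subset_Ioi zero_le_one)]
  have hg3 : Summable fun n => ‖g (n + 3)‖ := (summable_nat_add_iff 3).mpr hg
  have hg2 : Summable fun n => ‖g (n + 2)‖ := (summable_nat_add_iff 2).mpr hg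
  have hsplit : Ioi (0 : ℝ) = Ioc 0 1 ∪ Ioi 1 := (Ioc_union_Ioi_eq_Ioi zero_le_one).symm
  have hdisj : Disjoint (Ioc (0 : ℝ) 1) (Ioi 1) := Ioc_disjoint_Ioi_same
  have key : ∀ s : ℂ, 0 < s.re → Gamma s * ((Gamma s)⁻¹ * (mellin fi s +
      (g 0 / (s - 3) + g 1 / (s - 2) + g 2 / (s - 1))) + ∑' m, g (m + 3) * EE m s) =
      mellin fi s + (g 0 / (s - 3) + g 1 / (s - 2) + g 2 / (s - 1)) +
        ∑' m : ℕ, g (m + 3) / (s + m) := by
    intro s hs
    have hG : Gamma s ≠ 0 := Gamma_ne_zero_of_re_pos hs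
    rw [mul_add, ← mul_assoc, mul_inv_cancel₀ hG, one_mul, ← tsum_mul_left]
    congr 2
    ext m
    have hne : s ≠ -(m : ℂ) := by
      intro h
      rw [h] at hs
      simp only [neg_re, natCast_re] at hs
      have : (0 : ℝ) ≤ m := Nat.cast_nonneg m
      linarith
    rw [EE_eq m s hne]
    field_simp
  refine ⟨fun s => (Gamma s)⁻¹ * (mellin fi s +
      (g 0 / (s - 3) + g 1 / (s - 2) + g 2 / (s - 1))) + ∑' m, g (m + 3) * EE m s, ?_, ?_, ?_⟩
  · intro s hs
    obtain ⟨h1, h2, h3⟩ := hs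
    refine DifferentiableAt.differentiableWithinAt ?_
    refine DifferentiableAt.add (DifferentiableAt.mul (differentiable_one_div_Gamma s)
      ((hBd s).add ?_)) (tsum_EE_diff _ hg3 s)
    have h1' : s - 1 ≠ 0 := sub_ne_zero.mpr h1
    have h2' : s - 2 ≠ 0 := sub_ne_zero.mpr h2
    have h3' : s - 3 ≠ 0 := sub_ne_zero.mpr h3
    fun_prop (disch := assumption)
  · intro s hs
    rw [key s (by linarith)]
    have hφc : ContinuousOn (fun t : ℝ => (t : ℂ) ^ 3 * f t) (Ioc 0 1) :=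
      ContinuousOn.mul (by fun_prop) (hfc.mono Ioc_subset_Ioi_self)
    obtain ⟨hI, hS⟩ := ioc_series g hg _ hφc hf (s - 3) (by simp; linarith)
    have heq : EqOn (fun t : ℝ => (t : ℂ) ^ (s - 3 - 1) * ((t : ℂ) ^ 3 * f t))
        (fun t : ℝ => (t : ℂ) ^ (s - 1) * f t) (Ioc 0 1) := by
      intro t ht
      have ht0 : (t : ℂ) ≠ 0 := by exact_mod_cast ht.1.ne'
      simp only
      rw [← mul_assoc, ← cpow_natCast, ← cpow_add _ _ ht0]
      congr 2
      push_cast
      ring
    rw [setIntegral_congr_fun measurableSet_Ioc heq] at hS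
    have hI' := hI.congr_fun heq measurableSet_Ioc
    simp only [mellin, smul_eq_mul] at hBe ⊢
    rw [hsplit] at hBe ⊢
    rw [setIntegral_union hdisj measurableSet_Ioi hI' (hBi s), hBe s]
    have h3 := (hasSum_nat_add_iff' 3).mpr hS
    have h4 : ∑' m : ℕ, g (m + 3) / (s + m) =
        ∑' m : ℕ, g (m + 3) / (s - 3 + ((m + 3 : ℕ) : ℂ)) := by
      congr 1
      ext m
      congr 1
      push_cast
      ring
    rw [h4, h3.tsum_eq]
    simp only [Finset.sum_range_succ, Finset.range_zero, Finset.sum_empty]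
    push_cast
    ring_nf
  · intro s hs1 hs2
    rw [key s (by linarith)]
    set h : ℝ → ℂ := fun t : ℝ => f t - g 0 / (t : ℂ) ^ 3 - g 1 / (t : ℂ) ^ 2 with hh
    have hφc : ContinuousOn (fun t : ℝ => (t : ℂ) * h t) (Ioc 0 1) := by
      refine ContinuousOn.mul (by fun_prop) ?_
      refine ((hfc.mono Ioc_subset_Ioi_self).sub ?_).sub ?_
      · refine ContinuousOn.div (by fun_prop) (by fun_prop) fun t ht => ?_
        have ht0 : (t : ℂ) ≠ 0 := by exact_mod_cast ht.1.ne'
        exact pow_ne_zero _ ht0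
      · refine ContinuousOn.div (by fun_prop) (by fun_prop) fun t ht => ?_
        have ht0 : (t : ℂ) ≠ 0 := by exact_mod_cast ht.1.ne'
        exact pow_ne_zero _ ht0
    have hφ : ∀ t ∈ Ioc (0 : ℝ) 1,
        HasSum (fun n => g (n + 2) * (t : ℂ) ^ n) ((t : ℂ) * h t) := by
      intro t ht
      have ht0 : (t : ℂ) ≠ 0 := by exact_mod_cast ht.1.ne'
      have h3 := ((hasSum_nat_add_iff' 2).mpr (hf t ht)).mul_left (((t : ℂ) ^ 2)⁻¹)
      refine hs_congr h3 ?_ ?_
      · intro n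
        field_simp
        ring
      · simp only [Finset.sum_range_succ, Finset.range_zero, Finset.sum_empty, hh]
        field_simp
        ring
    obtain ⟨hI, hS⟩ := ioc_series _ hg2 _ hφc hφ (s - 1) (by simp; linarith)
    have heq : EqOn (fun t : ℝ => (t : ℂ) ^ (s - 1 - 1) * ((t : ℂ) * h t))
        (fun t : ℝ => (t : ℂ) ^ (s - 1) * h t) (Ioc 0 1) := by
      intro t ht
      have ht0 : (t : ℂ) ≠ 0 := by exact_mod_cast ht.1.ne'
      simp only
      rw [← mul_assoc]
      congr 1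
      conv_lhs => rw [← cpow_one (t : ℂ)]
      rw [cpow_one, ← cpow_one (t : ℂ)]
      nth_rewrite 1 [cpow_one]
      rw [← cpow_add _ _ ht0, cpow_one]
      congr 1
      ring
    rw [setIntegral_congr_fun measurableSet_Ioc heq] at hS
    have hI' := hI.congr_fun heq measurableSet_Ioc
    have hp3 : (s - 4).re < -1 := by simp; linarith
    have hp2 : (s - 3).re < -1 := by simp; linarith
    have heq2 : EqOn (fun t : ℝ => (t : ℂ) ^ (s - 1) * f t - g 0 * (t : ℂ) ^ (s - 4)
        - g 1 * (t : ℂ) ^ (s - 3)) (fun t : ℝ => (t : ℂ) ^ (s - 1) * h t) (Ioi 1) := by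
      intro t ht
      have ht' : (0 : ℝ) < t := lt_trans zero_lt_one ht
      have ht0 : (t : ℂ) ≠ 0 := by exact_mod_cast ht'.ne'
      have e3 : (t : ℂ) ^ (s - 4) = (t : ℂ) ^ (s - 1) / (t : ℂ) ^ 3 := by
        rw [← cpow_natCast, ← cpow_sub _ _ ht0]
        congr 1
        push_cast
        ring
      have e2 : (t : ℂ) ^ (s - 3) = (t : ℂ) ^ (s - 1) / (t : ℂ) ^ 2 := by
        rw [← cpow_natCast, ← cpow_sub _ _ ht0]
        congr 1
        push_cast
        ring
      simp only [hh, e3, e2]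
      ring
    have i3 := (integrableOn_Ioi_cpow_of_lt hp3 zero_lt_one).const_mul (g 0)
    have i2 := (integrableOn_Ioi_cpow_of_lt hp2 zero_lt_one).const_mul (g 1)
    have i4 : Integrable (fun t : ℝ => (t : ℂ) ^ (s - 1) * f t - g 0 * (t : ℂ) ^ (s - 4))
      (volume.restrict (Ioi 1)) := (hBi s).sub i3
    have hJ : IntegrableOn (fun t : ℝ => (t : ℂ) ^ (s - 1) * h t) (Ioi 1) :=
      IntegrableOn.congr_fun (((hBi s).sub i3).sub i2) heq2 measurableSet_Ioi
    constructor
    · unfold MellinConvergent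
      rw [hsplit]
      exact hI'.union hJ
    · rw [hBe s]
      simp only [mellin, smul_eq_mul]
      rw [hsplit, setIntegral_union hdisj measurableSet_Ioi hI' hJ,
        ← setIntegral_congr_fun measurableSet_Ioi heq2,
        integral_sub i4 i2, integral_sub (hBi s) i3, integral_const_mul,
        integral_const_mul, integral_Ioi_cpow_of_lt hp3 zero_lt_one,
        integral_Ioi_cpow_of_lt hp2 zero_lt_one]
      have h3 := (hasSum_nat_add_iff' 1).mpr hS
      have h4 : ∑' m : ℕ, g (m + 3) / (s + m) =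
          ∑' m : ℕ, g (m + 1 + 2) / (s - 1 + ((m + 1 : ℕ) : ℂ)) := by
        congr 1
        ext m
        congr 1
        push_cast
        ring
      rw [h4, h3.tsum_eq]
      simp only [Finset.sum_range_succ, Finset.range_zero, Finset.sum_empty, ofReal_one, one_cpow]
      push_cast
      ring_nf

end Pool.Agent.H.MP_fcb754_nt
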