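import Mathlib

set_option autoImplicit false

open Complex MeasureTheory Set Filter Topology Asymptotics
open scoped Real

namespace Pool.Agent.H.MP_fcb754_nt

lemma gamma_half_bound (t : ℝ) :
    ‖Gamma (1 / 2 + t * I)‖ ≤ 3 * Real.exp (-(π / 2) * |t|) := by
  have h1 : Gamma (1 - (1 / 2 + t * I)) = (starRingEnd ℂ) (Gamma (1 / 2 + t * I)) := by
    rw [← Gamma_conj]
    congr 1
    simp only [map_add, map_mul, conj_ofReal, conj_I, map_div₀, map_one, map_ofNat]
    ring
  have h2 := Gamma_mul_Gamma_one_sub (1 / 2 + t * I)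
  have h3 : Complex.sin (π * (1 / 2 + t * I)) = ((Real.cosh (π * t) : ℝ) : ℂ) := by
    have : (π : ℂ) * (1 / 2 + t * I) = ((π * t : ℝ) : ℂ) * I + π / 2 := by
      push_cast
      ring
    rw [this, Complex.sin_add_pi_div_two, cos_mul_I, ofReal_cosh]
  rw [h1, h3] at h2
  have h4 := congrArg norm h2
  rw [norm_mul, RCLike.norm_conj, norm_div, Complex.norm_real, Complex.norm_real,
    Real.norm_of_nonneg Real.pi_pos.le, Real.norm_of_nonneg (Real.cosh_pos _).le] at h4
  have h5 : Real.exp (π * |t|) / 2 ≤ Real.cosh (π * t) := by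
    rw [← Real.cosh_abs, abs_mul, abs_of_pos Real.pi_pos, Real.cosh_eq]
    have := Real.exp_pos (-(π * |t|))
    linarith
  have h6 : π / Real.cosh (π * t) ≤ (3 * Real.exp (-(π / 2) * |t|)) ^ 2 := by
    have e1 : (3 * Real.exp (-(π / 2) * |t|)) ^ 2 = 9 / Real.exp (π * |t|) := by
      rw [mul_pow, ← Real.exp_nat_mul, div_eq_mul_inv _ (Real.exp _), ← Real.exp_neg]
      congr 1
      · norm_num
      · congr 1
        push_cast
        ring
    rw [e1, div_le_div_iff₀ (Real.cosh_pos _) (Real.exp_pos _)]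
    have := Real.pi_lt_four
    have := Real.exp_pos (π * |t|)
    nlinarith
  rw [← h4, ← sq] at h6
  exact (pow_le_pow_iff_left₀ (norm_nonneg _) (by positivity) two_ne_zero).mp h6

lemma gamma_bound (t : ℝ) :
    ‖Gamma ((3 / 2 : ℝ) + t * I)‖ ≤ 3 * (1 + |t|) * Real.exp (-(π / 2) * |t|) := by
  have h0 : (1 / 2 + t * I : ℂ) ≠ 0 := by
    intro h
    have := congrArg Complex.re h
    simp at this
  have h1 : (((3 / 2 : ℝ) : ℂ) + t * I) = (1 / 2 + t * I) + 1 := by
    push_cast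
    ring
  rw [h1, Gamma_add_one _ h0, norm_mul]
  have h2 : ‖(1 / 2 + t * I : ℂ)‖ ≤ 1 + |t| := by
    refine (norm_add_le _ _).trans ?_
    simp only [one_div, norm_inv, Complex.norm_ofNat, norm_mul, Complex.norm_real,
      Real.norm_eq_abs, norm_I, mul_one]
    norm_num
  have h3 := gamma_half_bound t
  calc _ ≤ (1 + |t|) * (3 * Real.exp (-(π / 2) * |t|)) := by gcongr
    _ = _ := by ring

lemma layer (ψ : ℝ → ℝ) (hc : Continuous ψ) (h0 : ∀ t, 0 ≤ ψ t) (C : ℝ) (hC : 0 ≤ C)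
    (hb : ∀ T y : ℝ, 0 ≤ T → 0 ≤ y → 1 + T ≤ y ^ 2 → ∫ t in (0 : ℝ)..T, ψ t ≤ C * y ^ 3) :
    ∃ K : ℝ, 0 ≤ K ∧ ∀ γ : ℝ, 0 < γ → γ ≤ 1 →
      IntegrableOn (fun t => (1 + t) * Real.exp (-γ ^ 2 * t) * ψ t) (Ioi 0) ∧
      ∫ t in Ioi (0 : ℝ), (1 + t) * Real.exp (-γ ^ 2 * t) * ψ t ≤ K / γ ^ 5 := by
  have hs : Summable fun n : ℕ => ((n : ℝ) + 2) ^ 5 * Real.exp (-(n : ℝ)) := by
    have h1 := (summable_nat_add_iff 2).mpr (Real.summable_pow_mul_exp_neg_nat_mul 5 one_pos)
    refine (h1.mul_left (Real.exp 2)).congr fun n => ?_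
    push_cast
    rw [mul_left_comm, ← Real.exp_add]
    congr 2
    ring
  refine ⟨C * ∑' n : ℕ, ((n : ℝ) + 2) ^ 5 * Real.exp (-(n : ℝ)),
    mul_nonneg hC (tsum_nonneg fun n => by positivity), fun γ hγ hγ1 => ?_⟩
  have hγ2 : 0 < γ ^ 2 := by positivity
  have hγ21 : γ ^ 2 ≤ 1 := pow_le_one₀ hγ.le hγ1
  set G : ℝ → ℝ := fun t => (1 + t) * Real.exp (-γ ^ 2 * t) * ψ t with hG
  have hGc : Continuous G := by
    rw [hG]
    fun_prop
  have hnn : 0 ≤ᵐ[volume.restrict (Ioi 0)] G := by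
    rw [EventuallyLE, ae_restrict_iff' measurableSet_Ioi]
    refine Eventually.of_forall fun t ht => ?_
    have : (0 : ℝ) < t := ht
    have := h0 t
    simp only [hG, Pi.zero_apply]
    positivity
  have hcover : Ioi (0 : ℝ) ⊆ ⋃ n : ℕ, Ioc ((n : ℝ) / γ ^ 2) (((n : ℝ) + 1) / γ ^ 2) := by
    intro t ht
    have ht' : 0 < t * γ ^ 2 := mul_pos ht hγ2
    rw [mem_iUnion]
    refine ⟨⌈t * γ ^ 2⌉₊ - 1, ?_, ?_⟩
    · rw [div_lt_iff₀ hγ2]
      have h1 : 1 ≤ ⌈t * γ ^ 2⌉₊ := Nat.one_le_iff_ne_zero.mpr (Nat.ceil_pos.mpr ht').ne'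
      rw [Nat.cast_sub h1]
      have := Nat.ceil_lt_add_one ht'.le
      push_cast
      linarith
    · rw [le_div_iff₀ hγ2]
      have h1 : 1 ≤ ⌈t * γ ^ 2⌉₊ := Nat.one_le_iff_ne_zero.mpr (Nat.ceil_pos.mpr ht').ne'
      rw [Nat.cast_sub h1]
      have := Nat.le_ceil (t * γ ^ 2)
      push_cast
      linarith
  have hpiece : ∀ n : ℕ, ∫⁻ t in Ioc ((n : ℝ) / γ ^ 2) (((n : ℝ) + 1) / γ ^ 2),
      ENNReal.ofReal (G t) ≤
      ENNReal.ofReal (C / γ ^ 5 * (((n : ℝ) + 2) ^ 5 * Real.exp (-(n : ℝ)))) := by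
    intro n
    set T : ℝ := ((n : ℝ) + 1) / γ ^ 2 with hT
    set y : ℝ := ((n : ℝ) + 2) / γ with hy
    have hn : (0 : ℝ) ≤ n := Nat.cast_nonneg n
    have hT0 : 0 ≤ T := by positivity
    have hy0 : 0 ≤ y := by positivity
    have hTy : 1 + T ≤ y ^ 2 := by
      rw [hT, hy, div_pow, le_div_iff₀ hγ2, add_mul, div_mul_cancel₀ _ hγ2.ne']
      nlinarith
    have h1 := hb T y hT0 hy0 hTy
    have hint : IntegrableOn (fun t => y ^ 2 * Real.exp (-(n : ℝ)) * ψ t) (Ioc 0 T) :=
      (hc.integrableOn_Ioc).const_mul _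
    calc ∫⁻ t in Ioc ((n : ℝ) / γ ^ 2) T, ENNReal.ofReal (G t)
        ≤ ∫⁻ t in Ioc ((n : ℝ) / γ ^ 2) T,
            ENNReal.ofReal (y ^ 2 * Real.exp (-(n : ℝ)) * ψ t) := by
          refine setLIntegral_mono' measurableSet_Ioc fun t ht => ENNReal.ofReal_le_ofReal ?_
          have ht1 : (n : ℝ) < t * γ ^ 2 := (div_lt_iff₀ hγ2).mp ht.1
          have ht2 : 1 + t ≤ y ^ 2 := by linarith [ht.2]
          have ht3 : Real.exp (-γ ^ 2 * t) ≤ Real.exp (-(n : ℝ)) :=
            Real.exp_le_exp.mpr (by linarith)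
          have := h0 t
          simp only [hG]
          gcongr
      _ ≤ ∫⁻ t in Ioc 0 T, ENNReal.ofReal (y ^ 2 * Real.exp (-(n : ℝ)) * ψ t) :=
          lintegral_mono_set (Ioc_subset_Ioc_left (by positivity))
      _ = ENNReal.ofReal (∫ t in Ioc 0 T, y ^ 2 * Real.exp (-(n : ℝ)) * ψ t) := by
          rw [ofReal_integral_eq_lintegral_ofReal hint]
          refine Eventually.of_forall fun t => ?_
          have := h0 t
          simp only [Pi.zero_apply]
          positivity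
      _ ≤ _ := by
          refine ENNReal.ofReal_le_ofReal ?_
          rw [integral_const_mul, ← intervalIntegral.integral_of_le hT0]
          calc _ ≤ y ^ 2 * Real.exp (-(n : ℝ)) * (C * y ^ 3) := by gcongr
            _ = _ := by
              rw [hy]
              field_simp
  have htot : ∫⁻ t in Ioi (0 : ℝ), ENNReal.ofReal (G t) ≤
      ENNReal.ofReal (C * (∑' n : ℕ, ((n : ℝ) + 2) ^ 5 * Real.exp (-(n : ℝ))) / γ ^ 5) := by
    calc _ ≤ ∫⁻ t in ⋃ n : ℕ, Ioc ((n : ℝ) / γ ^ 2) (((n : ℝ) + 1) / γ ^ 2),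
            ENNReal.ofReal (G t) := lintegral_mono_set hcover
      _ ≤ ∑' n : ℕ, ∫⁻ t in Ioc ((n : ℝ) / γ ^ 2) (((n : ℝ) + 1) / γ ^ 2),
            ENNReal.ofReal (G t) := lintegral_iUnion_le _ _
      _ ≤ ∑' n : ℕ, ENNReal.ofReal (C / γ ^ 5 * (((n : ℝ) + 2) ^ 5 * Real.exp (-(n : ℝ)))) :=
          ENNReal.tsum_le_tsum hpiece
      _ = _ := by
          rw [← ENNReal.ofReal_tsum_of_nonneg (fun n => by positivity) (hs.mul_left _),
            tsum_mul_left]
          congr 1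
          ring
  have hInt : IntegrableOn G (Ioi 0) := by
    refine ⟨hGc.aestronglyMeasurable, ?_⟩
    rw [hasFiniteIntegral_iff_ofReal hnn]
    exact lt_of_le_of_lt htot ENNReal.ofReal_lt_top
  refine ⟨hInt, ?_⟩
  rw [← ofReal_integral_eq_lintegral_ofReal hInt hnn] at htot
  refine (ENNReal.ofReal_le_ofReal_iff ?_).mp htot
  have : 0 ≤ ∑' n : ℕ, ((n : ℝ) + 2) ^ 5 * Real.exp (-(n : ℝ)) :=
    tsum_nonneg fun n => by positivity
  positivity

lemma integrable_abs_of (f : ℝ → ℝ) (hf : IntegrableOn f (Ioi 0)) :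
    Integrable (fun x => f |x|) := by
  have h1 : IntegrableOn (fun x => f |x|) (Ioi 0) :=
    hf.congr_fun (fun x hx => by simp only [abs_of_pos (show 0 < x from hx)]) measurableSet_Ioi
  have int_Iic : IntegrableOn (fun x ↦ f |x|) (Iic 0) := by
    rw [← Measure.map_neg_eq_self (volume : Measure ℝ)]
    let m : MeasurableEmbedding fun x : ℝ => -x := (Homeomorph.neg ℝ).measurableEmbedding
    rw [m.integrableOn_map_iff]
    simp_rw [Function.comp_def, abs_neg, neg_preimage, neg_Iic, neg_zero]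
    exact Iff.mpr integrableOn_Ici_iff_integrableOn_Ioi h1
  rw [← integrableOn_univ, ← Iic_union_Ioi (a := (0 : ℝ))]
  exact int_Iic.union h1

lemma norm_exp_kernel (u : ℂ) (σ t : ℝ) :
    ‖cexp (-u * (σ + t * I))‖ = Real.exp (-u.re * σ + u.im * t) := by
  rw [Complex.norm_exp]
  congr 1
  simp
  ring

/-- Mellin inversion continued to a horizontal strip. -/
theorem strip_inversion (h : ℝ → ℂ) (H : ℂ → ℂ) (σ : ℝ)
    (hH : DifferentiableOn ℂ H {u | |u.im| < π / 2})
    (hHh : ∀ x : ℝ, H x = h (Real.exp x)) (hc : ContinuousOn h (Ioi 0))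
    (hm : MellinConvergent h σ) (hΦc : Continuous fun t : ℝ => mellin h (σ + t * I))
    (hΦ : ∀ b : ℝ, b < π / 2 →
      Integrable fun t : ℝ => Real.exp (b * |t|) * ‖mellin h (σ + t * I)‖) :
    ∀ u : ℂ, |u.im| < π / 2 →
      H u = (1 / (2 * π) : ℝ) * ∫ t : ℝ, cexp (-u * (σ + t * I)) * mellin h (σ + t * I) := by
  set Φ : ℝ → ℂ := fun t : ℝ => mellin h (σ + t * I) with hΦd
  set S : Set ℂ := {u | |u.im| < π / 2} with hS
  have hSo : IsOpen S := isOpen_lt (by fun_prop) continuous_const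
  have hSc : Convex ℝ S := by
    have : S = {u : ℂ | -(π / 2) < u.im} ∩ {u : ℂ | u.im < π / 2} := by
      ext u
      simp [hS, abs_lt]
    rw [this]
    exact (convex_halfSpace_im_gt _).inter (convex_halfSpace_im_lt _)
  have hG : DifferentiableOn ℂ
      (fun u : ℂ => ∫ t : ℝ, cexp (-u * (σ + t * I)) * Φ t) S := by
    intro u0 hu0
    have hu0' : |u0.im| < π / 2 := hu0
    set β : ℝ := min 1 ((π / 2 - |u0.im|) / 3) with hβ
    have hβ0 : 0 < β := lt_min one_pos (by linarith)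
    have hβ1 : β ≤ 1 := min_le_left _ _
    have hβ2 : β ≤ (π / 2 - |u0.im|) / 3 := min_le_right _ _
    have hbd : ∀ u ∈ Metric.ball u0 β, ∀ t : ℝ, ‖cexp (-u * (σ + t * I))‖ ≤
        Real.exp ((|u0.re| + 1) * |σ|) * Real.exp ((|u0.im| + β) * |t|) := by
      intro u hu t
      rw [norm_exp_kernel, ← Real.exp_add]
      apply Real.exp_le_exp.mpr
      have h1 : ‖u - u0‖ < β := by simpa [dist_eq_norm] using hu
      have h2 : |u.re| ≤ |u0.re| + 1 := by
        have := Complex.abs_re_le_norm (u - u0)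
        rw [sub_re] at this
        have := abs_sub_abs_le_abs_sub u.re u0.re
        linarith
      have h3 : |u.im| ≤ |u0.im| + β := by
        have := Complex.abs_im_le_norm (u - u0)
        rw [sub_im] at this
        have := abs_sub_abs_le_abs_sub u.im u0.im
        linarith
      have h4 : -u.re * σ ≤ (|u0.re| + 1) * |σ| := by
        calc -u.re * σ ≤ |-u.re * σ| := le_abs_self _
          _ = |u.re| * |σ| := by rw [abs_mul, abs_neg]
          _ ≤ _ := by gcongr
      have h5 : u.im * t ≤ (|u0.im| + β) * |t| := by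
        calc u.im * t ≤ |u.im * t| := le_abs_self _
          _ = |u.im| * |t| := by rw [abs_mul]
          _ ≤ _ := by gcongr
      linarith
    have hlin : ∀ t : ℝ, ‖(σ + t * I : ℂ)‖ ≤ (|σ| + 1 / β) * Real.exp (β * |t|) := by
      intro t
      have h1 : ‖(σ + t * I : ℂ)‖ ≤ |σ| + |t| := by
        refine (norm_add_le _ _).trans ?_
        simp
      have h2 : β * |t| + 1 ≤ Real.exp (β * |t|) := Real.add_one_le_exp _
      have h3 : 0 ≤ β * |t| := by positivity
      have h4 : |t| ≤ 1 / β * Real.exp (β * |t|) := by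
        rw [one_div, ← div_eq_inv_mul, le_div_iff₀ hβ0]
        linarith
      have h5 : |σ| ≤ |σ| * Real.exp (β * |t|) :=
        le_mul_of_one_le_right (abs_nonneg _) (by linarith)
      linarith
    have hI := hΦ (|u0.im| + 2 * β) (by linarith)
    have hI1 := hΦ (|u0.im| + β) (by linarith)
    have key := hasDerivAt_integral_of_dominated_loc_of_deriv_le (μ := volume)
      (F := fun (u : ℂ) (t : ℝ) => cexp (-u * (σ + t * I)) * Φ t)
      (F' := fun (u : ℂ) (t : ℝ) => cexp (-u * (σ + t * I)) * (-(σ + t * I)) * Φ t)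
      (bound := fun t => (Real.exp ((|u0.re| + 1) * |σ|) * (|σ| + 1 / β)) *
        (Real.exp ((|u0.im| + 2 * β) * |t|) * ‖Φ t‖))
      (x₀ := u0) (Metric.ball_mem_nhds u0 hβ0)
      (Eventually.of_forall fun u => Continuous.aestronglyMeasurable (by fun_prop))
      ?_ (Continuous.aestronglyMeasurable (by fun_prop)) ?_ (hI.const_mul _) ?_
    · exact key.2.differentiableAt.differentiableWithinAt
    · refine Integrable.mono' (hI1.const_mul (Real.exp ((|u0.re| + 1) * |σ|)))
        (Continuous.aestronglyMeasurable (by fun_prop)) (Eventually.of_forall fun t => ?_)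
      rw [norm_mul, ← mul_assoc]
      exact mul_le_mul_of_nonneg_right (hbd u0 (Metric.mem_ball_self hβ0) t) (norm_nonneg _)
    · refine Eventually.of_forall fun t u hu => ?_
      rw [norm_mul, norm_mul, norm_neg]
      have h1 := hbd u hu t
      have h2 := hlin t
      calc _ ≤ Real.exp ((|u0.re| + 1) * |σ|) * Real.exp ((|u0.im| + β) * |t|) *
            ((|σ| + 1 / β) * Real.exp (β * |t|)) * ‖Φ t‖ := by gcongr
        _ = _ := by
          have : Real.exp ((|u0.im| + 2 * β) * |t|) =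
              Real.exp ((|u0.im| + β) * |t|) * Real.exp (β * |t|) := by
            rw [← Real.exp_add]
            congr 1
            ring
          rw [this]
          ring
    · refine Eventually.of_forall fun t u _ => ?_
      have h1 : HasDerivAt (fun u : ℂ => -u * (σ + t * I)) (-(σ + t * I)) u := by
        simpa using ((hasDerivAt_id u).neg.mul_const (σ + t * I : ℂ))
      exact h1.cexp.mul_const _
  have hreal : ∀ x : ℝ, H x = (1 / (2 * π) : ℝ) * ∫ t : ℝ, cexp (-x * (σ + t * I)) * Φ t := by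
    intro x
    have hV : VerticalIntegrable (mellin h) σ := by
      have h1 := hΦ 0 (by positivity)
      simp only [zero_mul, Real.exp_zero, one_mul] at h1
      exact (integrable_norm_iff hΦc.aestronglyMeasurable).mp h1
    have h2 := mellinInv_mellin_eq σ h (Real.exp_pos x) hm hV
      (hc.continuousAt (Ioi_mem_nhds (Real.exp_pos x)))
    rw [hHh, ← h2, mellinInv, real_smul]
    congr 2
    ext t
    rw [smul_eq_mul, cpow_def_of_ne_zero (by exact_mod_cast (Real.exp_pos x).ne'),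
      ← Complex.ofReal_log (Real.exp_pos x).le, Real.log_exp]
    congr 2
    ring
  have hA1 : AnalyticOnNhd ℂ H S := hH.analyticOnNhd hSo
  have hA2 : AnalyticOnNhd ℂ (fun u : ℂ => ((1 / (2 * π) : ℝ) : ℂ) *
      ∫ t : ℝ, cexp (-u * (σ + t * I)) * Φ t) S := (hG.const_mul _).analyticOnNhd hSo
  have h0 : (0 : ℂ) ∈ S := by
    simp only [hS, mem_ofPred_eq, zero_im, abs_zero]
    positivity
  have hfreq : ∃ᶠ z in 𝓝[≠] (0 : ℂ), H z = ((1 / (2 * π) : ℝ) : ℂ) *
      ∫ t : ℝ, cexp (-z * (σ + t * I)) * Φ t := by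
    have ht : Tendsto (fun x : ℝ => (x : ℂ)) (𝓝[≠] 0) (𝓝[≠] 0) := by
      refine tendsto_nhdsWithin_of_tendsto_nhds_of_eventually_within _ ?_ ?_
      · exact (continuous_ofReal.tendsto' 0 0 ofReal_zero).mono_left nhdsWithin_le_nhds
      · filter_upwards [self_mem_nhdsWithin] with x hx
        simpa using hx
    exact ht.frequently (Eventually.of_forall hreal).frequently
  exact fun u hu => hA1.eqOn_of_preconnected_of_frequently_eq hA2 hSc.isPreconnected h0 hfreq hu

end Pool.Agent.H.MP_fcb754_nt
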