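import Mathlib
import Pool.Agent.H.MP_fcb754_nt.Cont

set_option autoImplicit false

open Complex MeasureTheory Set Filter Topology Asymptotics
open scoped Real

namespace Pool.Agent.H.MP_fcb754_nt

/-- Triples of naturals. -/
def tripleEquiv : ℕ × ℕ × ℕ ≃ (Fin 3 → ℕ) where
  toFun x := ![x.1, x.2.1, x.2.2]
  invFun m := (m 0, m 1, m 2)
  left_inv x := by simp
  right_inv m := by
    ext j
    fin_cases j <;> simp

lemma hasSum_triple (f0 f1 f2 : ℕ → ℝ) (a0 a1 a2 : ℝ) (h0 : HasSum f0 a0) (h1 : HasSum f1 a1)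
    (h2 : HasSum f2 a2) (p0 : 0 ≤ f0) (p1 : 0 ≤ f1) (p2 : 0 ≤ f2) :
    HasSum (fun m : Fin 3 → ℕ => f0 (m 0) * (f1 (m 1) * f2 (m 2))) (a0 * (a1 * a2)) := by
  have h12 := h1.mul h2 (h1.summable.mul_of_nonneg h2.summable p1 p2)
  have h012 := h0.mul h12 (h0.summable.mul_of_nonneg h12.summable p0
    (fun x => mul_nonneg (p1 _) (p2 _)))
  rw [← tripleEquiv.hasSum_iff]
  exact h012

/-- The weights. -/
def ww (θ : ℝ) : Fin 3 → ℝ := ![1, θ, θ ^ 2]

lemma ww_sum (θ : ℝ) (m : Fin 3 → ℕ) :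
    ∑ j, (m j : ℝ) * ww θ j = m 0 + m 1 * θ + m 2 * θ ^ 2 := by
  simp [ww, Fin.sum_univ_three]

lemma finrank_ww (θ : ℝ) (hθ : Liouville θ) :
    Module.finrank ℚ (Submodule.span ℚ (Set.range (ww θ))) = 3 := by
  have ht : Transcendental ℚ θ := fun h =>
    hθ.transcendental ((IsFractionRing.isAlgebraic_iff ℤ ℚ ℝ).mpr h)
  have hli : LinearIndependent ℚ (ww θ) := by
    rw [Fintype.linearIndependent_iff]
    intro g hg
    simp only [ww, Fin.sum_univ_three, Matrix.cons_val_zero, Matrix.cons_val_one,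
      Matrix.cons_val] at hg
    have h1 := (transcendental_iff.mp ht)
      (Polynomial.C (g 0) + Polynomial.C (g 1) * Polynomial.X +
        Polynomial.C (g 2) * Polynomial.X ^ 2) (by
        simp only [map_add, map_mul, map_pow, Polynomial.aeval_C, Polynomial.aeval_X]
        simpa [Algebra.smul_def] using hg)
    have c0 := congrArg (fun p => p.coeff 0) h1
    have c1 := congrArg (fun p => p.coeff 1) h1
    have c2 := congrArg (fun p => p.coeff 2) h1
    simp [Polynomial.coeff_X, Polynomial.coeff_C, Polynomial.coeff_X_pow] at c0 c1 c2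
    intro j
    fin_cases j
    · exact c0
    · exact c1
    · exact c2
  rw [finrank_span_eq_card hli]
  simp

/-- The generating function, complex version. -/
noncomputable def fC (θ : ℝ) (z : ℂ) : ℂ :=
  cexp (-z) / ((1 - cexp (-z)) * ((1 - cexp (-(θ * z))) * (1 - cexp (-(θ ^ 2 * z)))))

/-- The generating function, real version. -/
noncomputable def fR (θ : ℝ) (t : ℝ) : ℝ :=
  Real.exp (-t) / ((1 - Real.exp (-t)) * ((1 - Real.exp (-(θ * t))) *
    (1 - Real.exp (-(θ ^ 2 * t)))))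

lemma fC_ofReal (θ t : ℝ) : fC θ t = (fR θ t : ℂ) := by
  unfold fC fR
  push_cast
  rfl

lemma one_sub_exp_ne (z : ℂ) (hz : 0 < z.re) : 1 - cexp (-z) ≠ 0 := by
  intro h
  have h1 : cexp (-z) = 1 := (sub_eq_zero.mp h).symm
  have h2 := congrArg norm h1
  rw [Complex.norm_exp, norm_one, Real.exp_eq_one_iff, neg_re] at h2
  linarith

lemma fC_diff (θ : ℝ) (hθ : 0 < θ) (z : ℂ) (hz : 0 < z.re) : DifferentiableAt ℂ (fC θ) z := by
  have h1 := one_sub_exp_ne z hz
  have h2 := one_sub_exp_ne (θ * z) (by simp; positivity)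
  have h3 := one_sub_exp_ne (θ ^ 2 * z) (by
    rw [← ofReal_pow, re_ofReal_mul]; positivity)
  unfold fC
  exact DifferentiableAt.div (by fun_prop) (by fun_prop) (mul_ne_zero h1 (mul_ne_zero h2 h3))

lemma hasSum_f (θ : ℝ) (hθ : 0 < θ) (t : ℝ) (ht : 0 < t) :
    HasSum (fun m : Fin 3 → ℕ => Real.exp (-(1 + ∑ j, (m j : ℝ) * ww θ j) * t)) (fR θ t) := by
  have g : ∀ w : ℝ, 0 < w → HasSum (fun n : ℕ => Real.exp (-w) ^ n) (1 - Real.exp (-w))⁻¹ :=
    fun w hw => hasSum_geometric_of_lt_one (Real.exp_pos _).le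
      (Real.exp_lt_one_iff.mpr (by linarith))
  have h := (hasSum_triple _ _ _ _ _ _ (g t ht) (g (θ * t) (by positivity))
    (g (θ ^ 2 * t) (by positivity)) (fun n => by positivity) (fun n => by positivity)
    (fun n => by positivity)).mul_left (Real.exp (-t))
  have e1 : (fun m : Fin 3 → ℕ => Real.exp (-(1 + ∑ j, (m j : ℝ) * ww θ j) * t)) =
      fun m : Fin 3 → ℕ => Real.exp (-t) * (Real.exp (-t) ^ (m 0) *
        (Real.exp (-(θ * t)) ^ (m 1) * Real.exp (-(θ ^ 2 * t)) ^ (m 2))) := by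
    ext m
    rw [ww_sum]
    simp only [← Real.exp_nat_mul, ← Real.exp_add]
    congr 1
    ring
  have e2 : fR θ t = Real.exp (-t) * ((1 - Real.exp (-t))⁻¹ *
      ((1 - Real.exp (-(θ * t)))⁻¹ * (1 - Real.exp (-(θ ^ 2 * t)))⁻¹)) := by
    unfold fR
    rw [div_eq_mul_inv, mul_inv, mul_inv]
  rw [e1, e2]
  exact h

lemma summable_series (θ : ℝ) (hθ : 1 ≤ θ) (σ : ℝ) (hσ : 3 < σ) :
    Summable fun m : Fin 3 → ℕ => 1 / (1 + ∑ j, (m j : ℝ) * ww θ j) ^ σ := by
  have h1 : Summable fun n : ℕ => 1 / |(n : ℝ) + 1| ^ (σ / 3) :=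
    (Real.summable_one_div_nat_add_rpow 1 (σ / 3)).mpr (by linarith)
  have h2 := (hasSum_triple _ _ _ _ _ _ h1.hasSum h1.hasSum h1.hasSum
    (fun n => by positivity) (fun n => by positivity) (fun n => by positivity)).summable
  have hθ2 : 1 ≤ θ ^ 2 := one_le_pow₀ hθ
  refine Summable.of_nonneg_of_le (fun m => ?_) (fun m => ?_) h2
  · rw [ww_sum]
    positivity
  · rw [ww_sum]
    set L : ℝ := 1 + ((m 0 : ℝ) + m 1 * θ + m 2 * θ ^ 2) with hL
    have n0 : (0 : ℝ) ≤ m 0 := Nat.cast_nonneg _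
    have n1 : (0 : ℝ) ≤ m 1 := Nat.cast_nonneg _
    have n2 : (0 : ℝ) ≤ m 2 := Nat.cast_nonneg _
    have k1 : (m 1 : ℝ) ≤ m 1 * θ := le_mul_of_one_le_right n1 hθ
    have k2 : (m 2 : ℝ) ≤ m 2 * θ ^ 2 := le_mul_of_one_le_right n2 hθ2
    have hL0 : 0 < L := by linarith
    have b : ∀ x : ℝ, 0 ≤ x → x + 1 ≤ L → 1 / L ^ (σ / 3) ≤ 1 / |x + 1| ^ (σ / 3) := by
      intro x hx hxL
      rw [abs_of_pos (by linarith)]
      apply one_div_le_one_div_of_le (by positivity)
      exact Real.rpow_le_rpow (by linarith) hxL (by linarith)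
    have e : 1 / L ^ σ = 1 / L ^ (σ / 3) * (1 / L ^ (σ / 3) * (1 / L ^ (σ / 3))) := by
      rw [one_div_mul_one_div, one_div_mul_one_div, ← Real.rpow_add hL0, ← Real.rpow_add hL0]
      congr 2
      ring
    rw [e]
    have b0 := b _ n0 (by linarith)
    have b1 := b _ n1 (by linarith)
    have b2 := b _ n2 (by linarith)
    gcongr

/-- The entire function `(1 - exp (-z)) / z`. -/
noncomputable def psi : ℂ → ℂ := dslope (fun z => 1 - cexp (-z)) 0

lemma psi_diff : Differentiable ℂ psi := by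
  rw [← differentiableOn_univ]
  refine (Complex.differentiableOn_dslope univ_mem).mpr ?_
  fun_prop

lemma psi_eq (z : ℂ) (hz : z ≠ 0) : psi z = (1 - cexp (-z)) / z := by
  unfold psi
  rw [dslope_of_ne _ hz, slope_def_field]
  simp

lemma psi_ne (z : ℂ) (hz : ‖z‖ < 6) : psi z ≠ 0 := by
  by_cases h0 : z = 0
  · subst h0
    unfold psi
    rw [dslope_same]
    have : HasDerivAt (fun z : ℂ => 1 - cexp (-z)) 1 0 := by
      simpa using ((hasDerivAt_id (0 : ℂ)).neg.cexp).const_sub 1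
    rw [this.deriv]
    exact one_ne_zero
  · rw [psi_eq z h0]
    refine div_ne_zero ?_ h0
    intro h
    have h1 : cexp (-z) = 1 := (sub_eq_zero.mp h).symm
    obtain ⟨n, hn⟩ := Complex.exp_eq_one_iff.mp h1
    have h2 := congrArg norm hn
    have hn0 : n ≠ 0 := by
      rintro rfl
      simp at hn
      exact h0 hn
    have h3 : (1 : ℝ) ≤ |(n : ℝ)| := by exact_mod_cast Int.one_le_abs hn0
    simp only [norm_neg, norm_mul, Complex.norm_intCast, Complex.norm_ofNat, Complex.norm_real,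
      Real.norm_eq_abs, norm_I, mul_one, abs_of_pos Real.pi_pos] at h2
    have := Real.pi_gt_three
    nlinarith

lemma exists_coeffs (θ : ℝ) (h1 : 1 < θ) (h2 : θ < 2) :
    ∃ g : ℕ → ℝ, Summable (fun n => ‖(g n : ℂ)‖) ∧
      ∀ t ∈ Ioc (0 : ℝ) 1, HasSum (fun n => (g n : ℂ) * (t : ℂ) ^ n)
        ((t : ℂ) ^ 3 * (fR θ t : ℂ)) := by
  set G : ℂ → ℂ := fun z => cexp (-z) / (psi z * ((θ * psi (θ * z)) *
    (θ ^ 2 * psi (θ ^ 2 * z)))) with hG
  have hθ0 : (θ : ℂ) ≠ 0 := by exact_mod_cast (by linarith : θ ≠ 0)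
  have hθn : ‖(θ : ℂ)‖ = θ := by rw [Complex.norm_real, Real.norm_of_nonneg (by linarith)]
  have hGd : DifferentiableOn ℂ G (Metric.ball 0 (3 / 2)) := by
    intro z hz
    have hz' : ‖z‖ < 3 / 2 := by simpa using hz
    have hz0 := norm_nonneg z
    have p1 := psi_ne z (by linarith)
    have p2 := psi_ne (θ * z) (by rw [norm_mul, hθn]; nlinarith)
    have p3 := psi_ne (θ ^ 2 * z) (by rw [norm_mul, norm_pow, hθn]; nlinarith)
    have := psi_diff
    refine DifferentiableAt.differentiableWithinAt ?_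
    rw [hG]
    refine DifferentiableAt.div (by fun_prop) (by fun_prop) ?_
    exact mul_ne_zero p1 (mul_ne_zero (mul_ne_zero hθ0 p2) (mul_ne_zero (pow_ne_zero _ hθ0) p3))
  set c : ℕ → ℂ := fun n => ((n.factorial : ℂ))⁻¹ * iteratedDeriv n G 0 with hc
  have hs : ∀ z : ℂ, ‖z‖ < 3 / 2 → HasSum (fun n => c n * z ^ n) (G z) := by
    intro z hz
    refine hs_congr (Complex.hasSum_taylorSeries_on_ball hGd (z := z) (by simpa using hz)) ?_ rfl
    intro n
    simp only [hc, sub_zero, smul_eq_mul]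
    ring
  have hsum : Summable fun n => ‖c n‖ := by
    have := (hs 1 (by norm_num)).summable
    simp only [one_pow, mul_one] at this
    exact summable_norm_iff.mpr this
  refine ⟨fun n => (c n).re, ?_, fun t ht => ?_⟩
  · refine Summable.of_nonneg_of_le (fun n => norm_nonneg _) (fun n => ?_) hsum
    rw [Complex.norm_real]
    exact Complex.abs_re_le_norm _
  · have ht0 : (t : ℂ) ≠ 0 := by exact_mod_cast ht.1.ne'
    have h3 := hs t (by rw [Complex.norm_real, Real.norm_of_nonneg ht.1.le]; linarith [ht.2])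
    have h4 : G t = ((t ^ 3 * fR θ t : ℝ) : ℂ) := by
      push_cast
      rw [← fC_ofReal]
      simp only [hG, fC]
      rw [psi_eq _ ht0, psi_eq _ (mul_ne_zero hθ0 ht0),
        psi_eq _ (mul_ne_zero (pow_ne_zero _ hθ0) ht0)]
      field_simp
    rw [h4] at h3
    have h5 := Complex.hasSum_ofReal.mpr (Complex.hasSum_re h3)
    refine hs_congr h5 ?_ ?_
    · intro n
      rw [← ofReal_pow, mul_comm (c n), re_ofReal_mul]
      push_cast
      ring
    · rw [ofReal_re]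
      push_cast
      rfl

lemma fR_bigO (θ : ℝ) (h1 : 1 < θ) :
    (fun t : ℝ => (fR θ t : ℂ)) =O[atTop] fun t => Real.exp (-1 * t) := by
  refine IsBigO.of_bound 8 ?_
  filter_upwards [eventually_ge_atTop (1 : ℝ)] with t ht
  have b : ∀ w : ℝ, 1 ≤ w → 1 / 2 ≤ 1 - Real.exp (-w) := by
    intro w hw
    have h2 : w + 1 ≤ Real.exp w := Real.add_one_le_exp w
    have h3 : Real.exp (-w) ≤ 1 / 2 := by
      rw [Real.exp_neg, ← one_div]
      exact one_div_le_one_div_of_le (by norm_num) (by linarith)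
    linarith
  have b1 := b t ht
  have b2 := b (θ * t) (by nlinarith)
  have b3 := b (θ ^ 2 * t) (by nlinarith)
  have hD : 1 / 2 * (1 / 2 * (1 / 2)) ≤ (1 - Real.exp (-t)) * ((1 - Real.exp (-(θ * t))) *
    (1 - Real.exp (-(θ ^ 2 * t)))) := by gcongr
  rw [Complex.norm_real, Real.norm_of_nonneg (Real.exp_pos _).le, neg_one_mul]
  unfold fR
  rw [Real.norm_of_nonneg (div_nonneg (Real.exp_pos _).le (by linarith)),
    div_le_iff₀ (by linarith)]
  have := Real.exp_pos (-t)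
  nlinarith

lemma f_contOn (θ : ℝ) (hθ : 0 < θ) : ContinuousOn (fun t : ℝ => (fR θ t : ℂ)) (Ioi 0) := by
  intro t ht
  have h1 : ContinuousAt (fC θ) (t : ℂ) := (fC_diff θ hθ t (by simpa using ht)).continuousAt
  have h2 : ContinuousAt (fun t : ℝ => fC θ t) t :=
    ContinuousAt.comp (f := fun t : ℝ => (t : ℂ)) h1 continuous_ofReal.continuousAt
  simp only [fC_ofReal] at h2
  exact h2.continuousWithinAt

/-- The continuation of the Barnes zeta function with weights `1, θ, θ ^ 2`. -/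
theorem exists_barnes (θ : ℝ) (h1 : 1 < θ) (h2 : θ < 2) :
    ∃ (F : ℂ → ℂ) (g0 g1 : ℝ), DifferentiableOn ℂ F {s | s ≠ 1 ∧ s ≠ 2 ∧ s ≠ 3} ∧
      (∀ s : ℂ, 3 < s.re →
        F s = ∑' m : Fin 3 → ℕ, (((1 + ∑ j, (m j : ℝ) * ww θ j : ℝ) : ℂ) ^ (-s))) ∧
      (∀ s : ℂ, 1 < s.re → s.re < 2 →
        MellinConvergent (fun t : ℝ => (fR θ t : ℂ) - g0 / (t : ℂ) ^ 3 - g1 / (t : ℂ) ^ 2) s ∧
        Gamma s * F s =
          mellin (fun t : ℝ => (fR θ t : ℂ) - g0 / (t : ℂ) ^ 3 - g1 / (t : ℂ) ^ 2) s) := by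
  obtain ⟨g, hg, hf⟩ := exists_coeffs θ h1 h2
  obtain ⟨F, hF1, hF2, hF3⟩ := exists_cont (fun n => (g n : ℂ)) hg (fun t => (fR θ t : ℂ))
    (f_contOn θ (by linarith)) 1 one_pos (fR_bigO θ h1) hf
  refine ⟨F, g 0, g 1, hF1, fun s hs => ?_, hF3⟩
  have hpos : ∀ m : Fin 3 → ℕ, 0 < 1 + ∑ j, (m j : ℝ) * ww θ j := by
    intro m
    rw [ww_sum]
    have : 0 < θ := by linarith
    positivity
  have H := hasSum_mellin (a := fun _ : Fin 3 → ℕ => (1 : ℂ))
    (p := fun m => 1 + ∑ j, (m j : ℝ) * ww θ j) (F := fun t => (fR θ t : ℂ)) (s := s)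
    (fun m => Or.inr (hpos m)) (by linarith)
    (fun t ht => by
      simpa only [one_mul] using Complex.hasSum_ofReal.mpr (hasSum_f θ (by linarith) t ht))
    (by simpa only [norm_one] using summable_series θ h1.le s.re hs)
  have hG : Gamma s ≠ 0 := Gamma_ne_zero_of_re_pos (by linarith)
  rw [← hF2 s hs] at H
  have H2 := H.mul_left (Gamma s)⁻¹
  rw [← mul_assoc, inv_mul_cancel₀ hG, one_mul] at H2
  rw [← H2.tsum_eq]
  congr 1
  ext m
  rw [cpow_neg]
  field_simp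

end Pool.Agent.H.MP_fcb754_nt
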