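import Mathlib
import Pool.Agent.H.MP_fcb754_nt.Inv
import Pool.Agent.H.MP_fcb754_nt.Obj

set_option autoImplicit false

open Complex MeasureTheory Set Filter Topology Asymptotics
open scoped Real

namespace Pool.Agent.H.MP_fcb754_nt

lemma mellin_conj (r : ℝ → ℝ) (σ t : ℝ) :
    ‖mellin (fun x => (r x : ℂ)) (σ + (|t| : ℝ) * I)‖ = ‖mellin (fun x => (r x : ℂ)) (σ + t * I)‖ := by
  rcases le_total 0 t with ht | ht
  · rw [abs_of_nonneg ht]
  · rw [abs_of_nonpos ht, ← RCLike.norm_conj]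
    congr 1
    simp only [mellin, smul_eq_mul]
    rw [← integral_conj]
    refine setIntegral_congr_fun measurableSet_Ioi fun x hx => ?_
    have hx' : (0 : ℝ) < x := hx
    have harg : (x : ℂ).arg ≠ π := by
      rw [arg_ofReal_of_nonneg hx'.le]
      exact Real.pi_pos.ne
    simp only [map_mul, conj_ofReal]
    congr 1
    have := cpow_conj (x : ℂ) (σ + ((-t : ℝ) : ℂ) * I - 1) harg
    rw [conj_ofReal] at this
    rw [← this]
    congr 1
    simp

lemma upper (θ : ℝ) (h1 : 1 < θ) (F : ℂ → ℂ) (g0 g1 : ℝ)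
    (hF1 : DifferentiableOn ℂ F {s | s ≠ 1 ∧ s ≠ 2 ∧ s ≠ 3})
    (hF3 : ∀ s : ℂ, 1 < s.re → s.re < 2 →
        MellinConvergent (fun t : ℝ => (fR θ t : ℂ) - g0 / (t : ℂ) ^ 3 - g1 / (t : ℂ) ^ 2) s ∧
        Gamma s * F s =
          mellin (fun t : ℝ => (fR θ t : ℂ) - g0 / (t : ℂ) ^ 3 - g1 / (t : ℂ) ^ 2) s)
    (hψc : Continuous fun t : ℝ => F ((3 / 2 : ℝ) + t * I))
    (C : ℝ) (hC : 0 ≤ C)
    (hb : ∀ T y : ℝ, 0 ≤ T → 0 ≤ y → 1 + T ≤ y ^ 2 →
      ∫ t in (0 : ℝ)..T, ‖F ((3 / 2 : ℝ) + t * I)‖ ≤ C * y ^ 3) :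
    ∃ K : ℝ, 0 ≤ K ∧ ∀ γ : ℝ, 0 < γ → γ ≤ 1 → ∀ u : ℂ, 0 ≤ u.re → u.im = π / 2 - γ ^ 2 →
      ‖fC θ (cexp u) - g0 / (cexp u) ^ 3 - g1 / (cexp u) ^ 2‖ ≤ K / γ ^ 5 := by
  obtain ⟨K, hK0, hK⟩ := layer (fun t : ℝ => ‖F ((3 / 2 : ℝ) + t * I)‖) hψc.norm
    (fun t => norm_nonneg _) C hC hb
  set h : ℝ → ℂ := fun t : ℝ => (fR θ t : ℂ) - g0 / (t : ℂ) ^ 3 - g1 / (t : ℂ) ^ 2 with hh
  have hre : ∀ t : ℝ, (((3 / 2 : ℝ) : ℂ) + t * I).re = 3 / 2 := by
    intro t
    simp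
  have hΦ : ∀ t : ℝ, mellin h ((3 / 2 : ℝ) + t * I) =
      Gamma ((3 / 2 : ℝ) + t * I) * F ((3 / 2 : ℝ) + t * I) := fun t =>
    (hF3 _ (by rw [hre]; norm_num) (by rw [hre]; norm_num)).2.symm
  have hΦc : Continuous fun t : ℝ => mellin h ((3 / 2 : ℝ) + t * I) := by
    simp only [hΦ]
    refine Continuous.mul ?_ hψc
    rw [continuous_iff_continuousAt]
    intro t
    refine ContinuousAt.comp (f := fun t : ℝ => ((3 / 2 : ℝ) : ℂ) + t * I)
      (differentiableAt_Gamma _ fun m hm => ?_).continuousAt (by fun_prop)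
    have := congrArg Complex.re hm
    rw [hre] at this
    simp only [neg_re, natCast_re] at this
    have : (0 : ℝ) ≤ m := Nat.cast_nonneg m
    linarith
  have hreal : h = fun x => ((fR θ x - g0 / x ^ 3 - g1 / x ^ 2 : ℝ) : ℂ) := by
    ext x
    simp only [hh]
    push_cast
    rfl
  have hbound : ∀ γ b : ℝ, b ≤ π / 2 - γ ^ 2 → ∀ t : ℝ,
      Real.exp (b * |t|) * ‖mellin h ((3 / 2 : ℝ) + t * I)‖ ≤
        3 * ((1 + |t|) * Real.exp (-γ ^ 2 * |t|) * ‖F ((3 / 2 : ℝ) + (|t| : ℝ) * I)‖) := by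
    intro γ b hbγ t
    have e1 : ‖mellin h ((3 / 2 : ℝ) + t * I)‖ = ‖mellin h ((3 / 2 : ℝ) + (|t| : ℝ) * I)‖ := by
      rw [hreal, mellin_conj]
    rw [e1, hΦ, norm_mul]
    have h2 := gamma_bound |t|
    rw [abs_abs] at h2
    have h3 : Real.exp (b * |t|) * Real.exp (-(π / 2) * |t|) ≤ Real.exp (-γ ^ 2 * |t|) := by
      rw [← Real.exp_add]
      apply Real.exp_le_exp.mpr
      have := abs_nonneg t
      nlinarith
    calc _ ≤ Real.exp (b * |t|) * ((3 * (1 + |t|) * Real.exp (-(π / 2) * |t|)) *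
          ‖F ((3 / 2 : ℝ) + (|t| : ℝ) * I)‖) := by gcongr
      _ = 3 * ((1 + |t|) * (Real.exp (b * |t|) * Real.exp (-(π / 2) * |t|)) *
          ‖F ((3 / 2 : ℝ) + (|t| : ℝ) * I)‖) := by ring
      _ ≤ _ := by gcongr
  have hint : ∀ γ b : ℝ, 0 < γ → γ ≤ 1 → b ≤ π / 2 - γ ^ 2 →
      Integrable fun t : ℝ => Real.exp (b * |t|) * ‖mellin h ((3 / 2 : ℝ) + t * I)‖ := by
    intro γ b hγ hγ1 hbγ
    refine Integrable.mono' ((integrable_abs_of _ (hK γ hγ hγ1).1).const_mul 3)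
      (Continuous.aestronglyMeasurable (by fun_prop)) (Eventually.of_forall fun t => ?_)
    rw [Real.norm_of_nonneg (by positivity)]
    exact hbound γ b hbγ t
  have hcont : ContinuousOn h (Ioi 0) := by
    refine ((f_contOn θ (by linarith)).sub ?_).sub ?_
    · refine ContinuousOn.div (by fun_prop) (by fun_prop) fun t ht => ?_
      have ht0 : (t : ℂ) ≠ 0 := by exact_mod_cast (show (0 : ℝ) < t from ht).ne'
      exact pow_ne_zero _ ht0
    · refine ContinuousOn.div (by fun_prop) (by fun_prop) fun t ht => ?_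
      have ht0 : (t : ℂ) ≠ 0 := by exact_mod_cast (show (0 : ℝ) < t from ht).ne'
      exact pow_ne_zero _ ht0
  have hinv := strip_inversion h
    (fun u => fC θ (cexp u) - g0 / (cexp u) ^ 3 - g1 / (cexp u) ^ 2) (3 / 2) ?_ ?_ hcont
    (hF3 _ (by simp; norm_num) (by simp; norm_num)).1 hΦc ?_
  · refine ⟨K, hK0, fun γ hγ hγ1 u hu1 hu2 => ?_⟩
    have hγ2 : 0 < γ ^ 2 := by positivity
    have hγ21 : γ ^ 2 ≤ 1 := pow_le_one₀ hγ.le hγ1
    have hpi := Real.pi_gt_three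
    have hu3 : |u.im| < π / 2 := by
      rw [hu2, abs_of_pos (by linarith)]
      linarith
    have h2 := hinv u hu3
    rw [h2, norm_mul, Complex.norm_real, Real.norm_of_nonneg (by positivity)]
    have h3 : ‖∫ t : ℝ, cexp (-u * ((3 / 2 : ℝ) + t * I)) * mellin h ((3 / 2 : ℝ) + t * I)‖ ≤
        ∫ t : ℝ, 3 * ((1 + |t|) * Real.exp (-γ ^ 2 * |t|) *
          ‖F ((3 / 2 : ℝ) + (|t| : ℝ) * I)‖) := by
      refine norm_integral_le_of_norm_le ((integrable_abs_of _ (hK γ hγ hγ1).1).const_mul 3)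
        (Eventually.of_forall fun t => ?_)
      refine le_trans ?_ (hbound γ _ le_rfl t)
      rw [norm_mul, norm_exp_kernel]
      refine mul_le_mul_of_nonneg_right (Real.exp_le_exp.mpr ?_) (norm_nonneg _)
      rw [hu2]
      have h4 : (π / 2 - γ ^ 2) * t ≤ (π / 2 - γ ^ 2) * |t| :=
        mul_le_mul_of_nonneg_left (le_abs_self t) (by linarith)
      linarith
    rw [integral_const_mul, integral_comp_abs (f := fun t : ℝ =>
      (1 + t) * Real.exp (-γ ^ 2 * t) * ‖F ((3 / 2 : ℝ) + t * I)‖)] at h3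
    have h4 := (hK γ hγ hγ1).2
    have h5 : 0 ≤ K / γ ^ 5 := by positivity
    have h6 : 1 / (2 * π) ≤ 1 / 6 := one_div_le_one_div_of_le (by norm_num) (by linarith)
    calc _ ≤ 1 / 6 * (3 * (2 * (K / γ ^ 5))) := by
          refine mul_le_mul h6 (h3.trans ?_) (norm_nonneg _) (by norm_num)
          linarith
      _ = _ := by ring
  · intro u hu
    have hu' : |u.im| < π / 2 := hu
    have h2 : 0 < (cexp u).re := by
      rw [exp_re]
      exact mul_pos (Real.exp_pos _) (Real.cos_pos_of_mem_Ioo ⟨by linarith [(abs_lt.mp hu').1],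
        (abs_lt.mp hu').2⟩)
    have h3 : DifferentiableAt ℂ (fun u => fC θ (cexp u)) u :=
      DifferentiableAt.comp u (fC_diff θ (by linarith) _ h2) (by fun_prop)
    have h4 : cexp u ^ 3 ≠ 0 := pow_ne_zero _ (exp_ne_zero u)
    have h5 : cexp u ^ 2 ≠ 0 := pow_ne_zero _ (exp_ne_zero u)
    refine DifferentiableAt.differentiableWithinAt ((h3.sub ?_).sub ?_)
    · exact DifferentiableAt.div (by fun_prop) (by fun_prop) h4
    · exact DifferentiableAt.div (by fun_prop) (by fun_prop) h5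
  · intro x
    simp only [hh]
    rw [← fC_ofReal, ofReal_exp]
  · intro b hb'
    have hs : 0 < √(π / 2 - b) := Real.sqrt_pos.mpr (by linarith)
    refine hint (min 1 √(π / 2 - b)) b (lt_min one_pos hs) (min_le_left _ _) ?_
    have h2 : (min 1 √(π / 2 - b)) ^ 2 ≤ √(π / 2 - b) ^ 2 :=
      pow_le_pow_left₀ (lt_min one_pos hs).le (min_le_right _ _) 2
    rw [Real.sq_sqrt (by linarith)] at h2
    linarith

lemma near_pole (w z : ℂ) (k : ℤ) (x : ℝ) (hz : z = w + k * (2 * π * I)) (hw : ‖w‖ ≤ x)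
    (hx : x ≤ 1) : ‖1 - cexp (-z)‖ ≤ 2 * x := by
  have h1 : cexp (-z) = cexp (-w) := by
    have h2 := exp_int_mul_two_pi_mul_I (-k)
    rw [hz, neg_add, Complex.exp_add, ← neg_mul, ← Int.cast_neg, h2, mul_one]
  rw [h1, norm_sub_rev]
  have h3 := Complex.norm_exp_sub_one_le (x := -w) (by rw [norm_neg]; linarith)
  rw [norm_neg] at h3
  linarith

lemma lower (θ : ℝ) (h1 : 1 < θ) (h2 : θ < 2) (p q : ℤ) (hq : 1 < q) (β : ℝ) (hβ : 0 < β)
    (hβq : 100 * ((q : ℝ) ^ 2 * β) ≤ 1) (he : |θ - p / q| ≤ β) :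
    ∃ u : ℂ, 0 ≤ u.re ∧ u.im = π / 2 - β ∧ 1 ≤ ‖cexp u‖ ∧
      1 / (3 * (200 * ((q : ℝ) ^ 2 * β)) ^ 3) ≤ ‖fC θ (cexp u)‖ := by
  have hq2 : (2 : ℝ) ≤ q := by exact_mod_cast hq
  have hq4 : (4 : ℝ) ≤ (q : ℝ) ^ 2 := by nlinarith
  have hβ1 : β ≤ 1 / 400 := by nlinarith
  have hpi := Real.pi_gt_three
  have hpi' := Real.pi_lt_d2
  have hcos : 1 / 2 ≤ Real.cos β := by
    have := Real.one_sub_sq_div_two_le_cos (x := β)
    nlinarith
  have hcos1 := Real.cos_le_one β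
  have hsin : Real.sin β ≤ β := Real.sin_le hβ.le
  have hsin0 : 0 < Real.sin β := Real.sin_pos_of_pos_of_lt_pi hβ (by linarith)
  set R : ℝ := 2 * π * (q : ℝ) ^ 2 / Real.cos β with hR
  have hR1 : 1 ≤ R := by
    rw [hR, le_div_iff₀ (by linarith)]
    nlinarith
  set η : ℝ := R * Real.sin β with hη
  set x : ℝ := (q : ℝ) ^ 2 * β with hx
  have hx0 : 0 < x := by positivity
  have hη0 : 0 < η := by positivity
  have hη1 : η ≤ 13 * x := by
    have hR2 : R ≤ 13 * (q : ℝ) ^ 2 := by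
      rw [hR, div_le_iff₀ (by linarith)]
      nlinarith
    calc η ≤ 13 * (q : ℝ) ^ 2 * β := by
          rw [hη]
          gcongr
      _ = _ := by rw [hx]; ring
  set u : ℂ := (Real.log R : ℝ) + (π / 2 - β : ℝ) * I with hu
  have hure : u.re = Real.log R := by simp [hu]
  have huim : u.im = π / 2 - β := by simp [hu]
  have hz : cexp u = η + ((q ^ 2 : ℤ) : ℂ) * (2 * π * I) := by
    apply Complex.ext
    · rw [exp_re, hure, huim, Real.exp_log (by linarith), Real.cos_pi_div_two_sub]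
      simp [hη, -ofReal_sin, pow_two]
    · rw [exp_im, hure, huim, Real.exp_log (by linarith), Real.sin_pi_div_two_sub, hR,
        div_mul_cancel₀ _ (by linarith)]
      simp [pow_two]
      ring
  have hzre : (cexp u).re = η := by
    rw [hz]
    simp [pow_two]
  refine ⟨u, by rw [hure]; exact Real.log_nonneg hR1, huim, ?_, ?_⟩
  · rw [Complex.norm_exp, hure, Real.exp_log (by linarith)]
    exact hR1
  · set e : ℝ := θ - p / q with hed
    have hq0 : (q : ℝ) ≠ 0 := by linarith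
    have hq0' : (q : ℂ) ≠ 0 := by exact_mod_cast hq0
    have hθe : θ = p / q + e := by rw [hed]; ring
    have hθe' : (θ : ℂ) = p / q + e := by exact_mod_cast congrArg (fun y : ℝ => (y : ℂ)) hθe
    have nrm : ∀ a b : ℝ, ‖(a : ℂ) + b * I‖ ≤ |a| + |b| := by
      intro a b
      refine (norm_add_le _ _).trans ?_
      simp
    have d1 : ‖1 - cexp (-cexp u)‖ ≤ 2 * (100 * x) := by
      refine near_pole η _ (q ^ 2) _ hz ?_ hβq
      rw [Complex.norm_real, Real.norm_of_nonneg hη0.le]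
      linarith
    have d2 : ‖1 - cexp (-(θ * cexp u))‖ ≤ 2 * (100 * x) := by
      refine near_pole (((θ * η : ℝ) : ℂ) + ((2 * π * ((q : ℝ) ^ 2 * e) : ℝ) : ℂ) * I) _ (p * q) _
        ?_ ?_ hβq
      · rw [hz]
        push_cast
        have : (θ : ℂ) * (q : ℂ) ^ 2 = p * q + q ^ 2 * e := by
          rw [hθe']
          field_simp
        linear_combination (2 * π * I) * this
      · refine (nrm _ _).trans ?_
        rw [abs_of_pos (by positivity), abs_mul, abs_mul ((q : ℝ) ^ 2),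
          abs_of_pos (by positivity : 0 < 2 * π), abs_of_pos (by positivity : 0 < (q : ℝ) ^ 2)]
        have k1 : (q : ℝ) ^ 2 * |e| ≤ x := by rw [hx]; gcongr
        have k2 : 0 ≤ (q : ℝ) ^ 2 * |e| := by positivity
        nlinarith
    have d3 : ‖1 - cexp (-(θ ^ 2 * cexp u))‖ ≤ 2 * (100 * x) := by
      refine near_pole (((θ ^ 2 * η : ℝ) : ℂ) +
        ((2 * π * ((q : ℝ) ^ 2 * (e * (2 * θ - e))) : ℝ) : ℂ) * I) _ (p ^ 2) _ ?_ ?_ hβq
      · rw [hz]
        push_cast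
        have : (θ : ℂ) ^ 2 * (q : ℂ) ^ 2 = p ^ 2 + q ^ 2 * (e * (2 * θ - e)) := by
          rw [hθe']
          field_simp
          ring
        linear_combination (2 * π * I) * this
      · refine (nrm _ _).trans ?_
        rw [abs_of_pos (by positivity), abs_mul, abs_mul ((q : ℝ) ^ 2), abs_mul e,
          abs_of_pos (by positivity : 0 < 2 * π), abs_of_pos (by positivity : 0 < (q : ℝ) ^ 2)]
        have k0 : |2 * θ - e| ≤ 5 := by
          have := abs_le.mp he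
          rw [abs_le]
          constructor <;> linarith
        have k1 : (q : ℝ) ^ 2 * (|e| * |2 * θ - e|) ≤ x * 5 := by
          rw [hx, mul_assoc]
          gcongr
        have k2 : 0 ≤ (q : ℝ) ^ 2 * (|e| * |2 * θ - e|) := by positivity
        have k3 : θ ^ 2 ≤ 4 := by nlinarith
        nlinarith
    have n1 := norm_pos_iff.mpr (one_sub_exp_ne (cexp u) (by rw [hzre]; exact hη0))
    have n2 := norm_pos_iff.mpr (one_sub_exp_ne (θ * cexp u) (by
      rw [re_ofReal_mul, hzre]; positivity))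
    have n3 := norm_pos_iff.mpr (one_sub_exp_ne (θ ^ 2 * cexp u) (by
      rw [← ofReal_pow, re_ofReal_mul, hzre]; positivity))
    have hexp : 1 / 3 ≤ ‖cexp (-cexp u)‖ := by
      rw [Complex.norm_exp, neg_re, hzre]
      have := Real.add_one_le_exp (-η)
      linarith
    unfold fC
    rw [norm_div, norm_mul, norm_mul]
    calc 1 / (3 * (200 * x) ^ 3) = (1 / 3) / (2 * (100 * x) * (2 * (100 * x) * (2 * (100 * x)))) := by
          field_simp
          ring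
      _ ≤ _ := by gcongr

/-- The first moment on the line `Re s = 3 / 2` is not `O(T ^ (3 / 2))`. -/
theorem main : ∃ (θ : ℝ) (F : ℂ → ℂ), 1 < θ ∧ Liouville θ ∧
    DifferentiableOn ℂ F {s | s ≠ 1 ∧ s ≠ 2 ∧ s ≠ 3} ∧
    (∀ s : ℂ, 3 < s.re →
      F s = ∑' m : Fin 3 → ℕ, (((1 + ∑ j, (m j : ℝ) * ww θ j : ℝ) : ℂ) ^ (-s))) ∧
    (Continuous fun t : ℝ => F ((3 / 2 : ℝ) + t * I)) ∧
    ∀ C T0 : ℝ, ¬ ∀ T : ℝ, T0 ≤ T →
      ∫ t in (1 : ℝ)..T, ‖F ((3 / 2 : ℝ) + t * I)‖ ≤ C * T ^ (3 / 2 : ℝ) := by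
  obtain ⟨θ, hθL, h1, h2⟩ := dense_liouville.exists_mem_open (isOpen_Ioo (a := (1 : ℝ)) (b := 2))
    ⟨3 / 2, by norm_num, by norm_num⟩
  obtain ⟨F, g0, g1, hF1, hF2, hF3⟩ := exists_barnes θ h1 h2
  have hψc : Continuous fun t : ℝ => F ((3 / 2 : ℝ) + t * I) := by
    refine hF1.continuousOn.comp_continuous (by fun_prop) fun t => ?_
    refine ⟨fun h => ?_, fun h => ?_, fun h => ?_⟩ <;>
    · have := congrArg Complex.re h
      simp at this
      norm_num at this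
  refine ⟨θ, F, h1, hθL, hF1, hF2, hψc, fun C T0 hb => ?_⟩
  set ψ : ℝ → ℝ := fun t => ‖F ((3 / 2 : ℝ) + t * I)‖ with hψ
  have hψc' : Continuous ψ := hψc.norm
  have hψ0 : ∀ t, 0 ≤ ψ t := fun t => norm_nonneg _
  set T1 : ℝ := max T0 1 with hT1
  have hT11 : 1 ≤ T1 := le_max_right _ _
  set A : ℝ := ∫ t in (0 : ℝ)..T1, ψ t with hA
  have hA0 : 0 ≤ A := intervalIntegral.integral_nonneg (by linarith) fun t _ => hψ0 t
  have hb' : ∀ T y : ℝ, 0 ≤ T → 0 ≤ y → 1 + T ≤ y ^ 2 →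
      ∫ t in (0 : ℝ)..T, ψ t ≤ (A + |C|) * y ^ 3 := by
    intro T y hT hy hTy
    have hy1 : 1 ≤ y := by nlinarith
    have hy3 : 1 ≤ y ^ 3 := one_le_pow₀ hy1
    have hC0 := abs_nonneg C
    have mono : ∀ a b : ℝ, 0 ≤ a → a ≤ b → ∫ t in (0 : ℝ)..a, ψ t ≤ ∫ t in (0 : ℝ)..b, ψ t := by
      intro a b ha hab
      rw [← intervalIntegral.integral_add_adjacent_intervals (hψc'.intervalIntegrable 0 a)
        (hψc'.intervalIntegrable a b)]
      have := intervalIntegral.integral_nonneg (μ := volume) hab fun t _ => hψ0 t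
      linarith
    rcases le_total T T1 with h | h
    · have := mono T T1 hT h
      nlinarith
    · have h3 := hb T (le_trans (le_max_left _ _) h)
      rw [← intervalIntegral.integral_add_adjacent_intervals (hψc'.intervalIntegrable 0 1)
        (hψc'.intervalIntegrable 1 T)]
      have h4 := mono 1 T1 zero_le_one hT11
      have h5 : T ^ (3 / 2 : ℝ) ≤ y ^ 3 := by
        calc T ^ (3 / 2 : ℝ) ≤ (y ^ 2) ^ (3 / 2 : ℝ) :=
              Real.rpow_le_rpow hT (by linarith) (by norm_num)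
          _ = y ^ 3 := by
              rw [← Real.rpow_natCast, ← Real.rpow_mul hy, ← Real.rpow_natCast]
              norm_num
      have h6 : C * T ^ (3 / 2 : ℝ) ≤ |C| * y ^ 3 :=
        mul_le_mul (le_abs_self C) h5 (by positivity) hC0
      nlinarith
  obtain ⟨K, hK0, hK⟩ := upper θ h1 F g0 g1 hF1 hF3 hψc (A + |C|) (by positivity) hb'
  set M : ℝ := 3 * 200 ^ 3 * (K + |g0| + |g1|) with hM
  obtain ⟨n, hn⟩ := pow_unbounded_of_one_lt M (one_lt_two (α := ℝ))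
  obtain ⟨p, q, hq, -, hpq⟩ := hθL (2 * (n + 6))
  have hq2 : (2 : ℝ) ≤ q := by exact_mod_cast hq
  set γ : ℝ := 1 / (q : ℝ) ^ (n + 6) with hγ
  have hqn : (1 : ℝ) ≤ (q : ℝ) ^ n := one_le_pow₀ (by linarith)
  have hq6 : (64 : ℝ) ≤ (q : ℝ) ^ 6 := by
    calc (64 : ℝ) = 2 ^ 6 := by norm_num
      _ ≤ _ := by gcongr
  have hγ0 : 0 < γ := by positivity
  have hγ1 : γ ≤ 1 := by
    rw [hγ, div_le_one (by positivity)]
    exact one_le_pow₀ (by linarith)
  have hγ2 : γ ^ 2 = 1 / (q : ℝ) ^ (2 * (n + 6)) := by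
    rw [hγ, div_pow, one_pow, ← pow_mul, mul_comm]
  have hsmall : 100 * ((q : ℝ) ^ 2 * γ ^ 2) ≤ 1 := by
    have : (q : ℝ) * γ ≤ 1 / 32 := by
      rw [hγ, mul_one_div, div_le_div_iff₀ (by positivity) (by norm_num), pow_add]
      have h5 : (32 : ℝ) ≤ (q : ℝ) ^ 5 := by
        calc (32 : ℝ) = 2 ^ 5 := by norm_num
          _ ≤ _ := by gcongr
      have h6 : (q : ℝ) ^ 6 = q * (q : ℝ) ^ 5 := by ring
      have h7 : (q : ℝ) * 32 ≤ (q : ℝ) ^ 6 := by rw [h6]; gcongr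
      nlinarith
    have h8 : 0 ≤ (q : ℝ) * γ := by positivity
    rw [← mul_pow]
    nlinarith
  obtain ⟨u, hu1, hu2, hu3, hu4⟩ := lower θ h1 h2 p q hq (γ ^ 2) (by positivity) hsmall
    (by rw [hγ2]; exact hpq.le)
  have h3 := hK γ hγ0 hγ1 u hu1 hu2
  have h4 : ‖(g0 : ℂ) / cexp u ^ 3‖ ≤ |g0| := by
    rw [norm_div, norm_pow, Complex.norm_real, Real.norm_eq_abs]
    exact div_le_self (abs_nonneg _) (one_le_pow₀ hu3)
  have h5 : ‖(g1 : ℂ) / cexp u ^ 2‖ ≤ |g1| := by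
    rw [norm_div, norm_pow, Complex.norm_real, Real.norm_eq_abs]
    exact div_le_self (abs_nonneg _) (one_le_pow₀ hu3)
  have h6 : ‖fC θ (cexp u)‖ ≤ K / γ ^ 5 + |g0| + |g1| := by
    have e : fC θ (cexp u) = (fC θ (cexp u) - g0 / cexp u ^ 3 - g1 / cexp u ^ 2) +
        g0 / cexp u ^ 3 + g1 / cexp u ^ 2 := by ring
    rw [e]
    refine (norm_add_le _ _).trans (add_le_add ((norm_add_le _ _).trans (add_le_add h3 h4)) h5)
  have hγ5 : 0 < γ ^ 5 := by positivity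
  have hγ51 : γ ^ 5 ≤ 1 := pow_le_one₀ hγ0.le hγ1
  have h7 : K / γ ^ 5 + |g0| + |g1| ≤ (K + |g0| + |g1|) / γ ^ 5 := by
    rw [add_div, add_div]
    have a0 : |g0| ≤ |g0| / γ ^ 5 := le_div_self (abs_nonneg _) hγ5 hγ51
    have a1 : |g1| ≤ |g1| / γ ^ 5 := le_div_self (abs_nonneg _) hγ5 hγ51
    linarith
  have h8 := hu4.trans (h6.trans h7)
  rw [div_le_div_iff₀ (by positivity) hγ5] at h8
  have h9 : 1 ≤ M * ((q : ℝ) ^ 6 * γ) := by
    have e : (K + |g0| + |g1|) * (3 * (200 * ((q : ℝ) ^ 2 * γ ^ 2)) ^ 3) =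
        M * ((q : ℝ) ^ 6 * γ) * γ ^ 5 := by
      rw [hM]
      ring
    rw [e] at h8
    exact le_of_mul_le_mul_right h8 hγ5
  have h10 : (q : ℝ) ^ 6 * γ = 1 / (q : ℝ) ^ n := by
    rw [hγ, pow_add]
    field_simp
  rw [h10, mul_one_div, le_div_iff₀ (by positivity), one_mul] at h9
  have h11 : (2 : ℝ) ^ n ≤ (q : ℝ) ^ n := by gcongr
  linarith

end Pool.Agent.H.MP_fcb754_nt
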